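import Pool.Agent.H65R4.Scale

/-!
# A scale of the least possible size (adapted from `H65R4/Scale.lean`)
-/

set_option autoImplicit false
set_option linter.all false

open Set Filter Cardinal

namespace Pool.Agent.Y569.UN

open Pool.Agent.H65R4

/-- There is a well-ordered (by eventual strict domination) family of monotone functions, indexed by
a linear well-order, not covered by countably many pointwise bounded sets. -/
theorem exists_scale2 : ∃ (J : Type) (_ : LinearOrder J) (_ : WellFoundedLT J) (x : J → ℕ → ℕ),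
    (∀ i, Monotone (x i)) ∧ (∀ i i', i < i' → EvLt (x i) (x i')) ∧
    (∀ g : ℕ → ℕ → ℕ, ∃ i, ∀ k, ¬ ∀ n, x i n ≤ g k n) ∧
    ∀ F : Set (ℕ → ℕ), (∀ g : ℕ → ℕ, ∃ f ∈ F, ¬ ∀ᶠ n in atTop, f n ≤ g n) → #J ≤ #F := by
  classical
  -- the least size of an unbounded family
  let U : Set (ℕ → ℕ) → Prop := fun F => ∀ g : ℕ → ℕ, ∃ f ∈ F, ¬ ∀ᶠ n in atTop, f n ≤ g n
  let S : Set Cardinal.{0} := {κ | ∃ F : Set (ℕ → ℕ), U F ∧ #F = κ}
  have hSne : S.Nonempty := by
    refine ⟨_, univ, ?_, rfl⟩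
    intro g
    refine ⟨fun n => g n + 1, mem_univ _, fun h => ?_⟩
    obtain ⟨n, hn⟩ := h.exists
    exact absurd hn (by simp)
  obtain ⟨F, hF, hFκ⟩ := csInf_mem hSne
  set κ : Cardinal.{0} := sInf S with hκ
  have hmin : ∀ F' : Set (ℕ → ℕ), #F' < κ → ∃ g : ℕ → ℕ, ∀ f ∈ F', ∀ᶠ n in atTop, f n ≤ g n := by
    intro F' hF'
    by_contra hcon
    refine absurd (csInf_le' (show #F' ∈ S from ⟨F', fun g => ?_, rfl⟩)) (not_le.2 hF')
    by_contra hg
    exact hcon ⟨g, fun f hf => by_contra fun h => hg ⟨f, hf, h⟩⟩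
  let J : Type := κ.ord.ToType
  have hJ : #J = κ := by simp [J]
  obtain ⟨e⟩ : Nonempty (J ≃ F) := Cardinal.eq.1 (hJ.trans hFκ.symm)
  have hIio : ∀ ξ : J, #(Iio ξ) < κ := by
    intro ξ
    have := Cardinal.mk_Iio_lt ξ (by simp [J])
    rwa [hJ] at this
  let P : (i : J) → ((i' : J) → i' < i → (ℕ → ℕ)) → (ℕ → ℕ) → Prop := fun i rec h =>
    (∀ i' (hi : i' < i), EvLt (rec i' hi) h) ∧ Monotone h ∧ ∀ n, (e i : ℕ → ℕ) n ≤ h n
  have hP : ∀ i rec, ∃ h, P i rec h := by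
    intro i rec
    obtain ⟨g, hg⟩ := hmin (range fun p : Iio i => rec p.1 p.2)
      (Cardinal.mk_range_le.trans_lt (hIio i))
    refine ⟨fun n => ∑ l ∈ Finset.range (n + 1), (g l + (e i : ℕ → ℕ) l + 1), ?_, ?_, ?_⟩
    · intro i' hi
      filter_upwards [hg _ ⟨⟨i', hi⟩, rfl⟩] with n hn
      refine hn.trans_lt ?_
      have h1 : g n + (e i : ℕ → ℕ) n + 1 ≤
          ∑ l ∈ Finset.range (n + 1), (g l + (e i : ℕ → ℕ) l + 1) :=
        Finset.single_le_sum (f := fun l => g l + (e i : ℕ → ℕ) l + 1)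
        (fun _ _ => Nat.zero_le _) (Finset.mem_range.2 (Nat.lt_succ_self n))
      show g n < ∑ l ∈ Finset.range (n + 1), (g l + (e i : ℕ → ℕ) l + 1)
      omega
    · intro m n hmn
      exact Finset.sum_le_sum_of_subset (Finset.range_mono (by omega))
    · intro n
      have h1 : g n + (e i : ℕ → ℕ) n + 1 ≤
          ∑ l ∈ Finset.range (n + 1), (g l + (e i : ℕ → ℕ) l + 1) :=
        Finset.single_le_sum (f := fun l => g l + (e i : ℕ → ℕ) l + 1)
        (fun _ _ => Nat.zero_le _) (Finset.mem_range.2 (Nat.lt_succ_self n))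
      show (e i : ℕ → ℕ) n ≤ ∑ l ∈ Finset.range (n + 1), (g l + (e i : ℕ → ℕ) l + 1)
      omega
  choose nx hnx using hP
  let x : J → ℕ → ℕ := WellFounded.fix (wellFounded_lt (α := J)) nx
  have hx : ∀ i, x i = nx i (fun i' _ => x i') := fun i => WellFounded.fix_eq _ _ i
  have hxP : ∀ i, P i (fun i' _ => x i') (x i) := fun i => by
    rw [hx i]
    exact hnx _ _
  refine ⟨J, inferInstance, inferInstance, x, fun i => (hxP i).2.1,
    fun i i' h => (hxP i').1 i h, ?_, fun F' hF' => hJ.trans_le (csInf_le' ⟨F', hF', rfl⟩)⟩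
  intro g
  obtain ⟨f, hf, hfu⟩ := hF (fun n => ∑ k ∈ Finset.range (n + 1), g k n)
  refine ⟨e.symm ⟨f, hf⟩, fun k hk => hfu ?_⟩
  filter_upwards [eventually_ge_atTop k] with n hn
  have h1 : f n ≤ x (e.symm ⟨f, hf⟩) n := by
    have := (hxP (e.symm ⟨f, hf⟩)).2.2 n
    simpa using this
  refine (h1.trans (hk n)).trans ?_
  exact Finset.single_le_sum (f := fun k => g k n) (fun _ _ => Nat.zero_le _)
    (Finset.mem_range.2 (by omega))

end Pool.Agent.Y569.UN
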