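import Mathlib

/-!
# Maps between measures: every finite non-atomic measure can be mapped onto a measure absolutely
continuous with respect to any given nonzero measure
-/

set_option autoImplicit false
set_option linter.all false

open Set Filter Topology MeasureTheory ProbabilityTheory unitInterval

namespace Pool.Agent.Y569.UN

/-- The distribution function of a non-atomic probability measure pushes it to the uniform
measure. -/
theorem map_cdf (m : Measure ℝ) [IsProbabilityMeasure m] (hm : ∀ x, m {x} = 0) :
    m.map (fun t => (⟨cdf m t, cdf_nonneg m t, cdf_le_one m t⟩ : I)) = volume := by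
  have hmeas : Measurable (fun t => (⟨cdf m t, cdf_nonneg m t, cdf_le_one m t⟩ : I)) :=
    (monotone_cdf m).measurable.subtype_mk
  haveI : IsProbabilityMeasure (m.map (fun t => (⟨cdf m t, cdf_nonneg m t, cdf_le_one m t⟩ : I))) :=
    Measure.isProbabilityMeasure_map hmeas.aemeasurable
  refine Measure.ext_of_Iic _ _ fun x => ?_
  rw [Measure.map_apply hmeas measurableSet_Iic, unitInterval.volume_Iic]
  have hpre : (fun t => (⟨cdf m t, cdf_nonneg m t, cdf_le_one m t⟩ : I)) ⁻¹' Iic x =
      {t | cdf m t ≤ x} := by
    ext t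
    simp only [mem_preimage, mem_Iic, mem_setOf_eq]
    exact Iff.rfl
  rw [hpre]
  -- continuity from the left
  have hleft : ∀ a : ℝ, Function.leftLim (cdf m) a = cdf m a := by
    intro a
    have h1 : (cdf m).measure {a} = 0 := by rw [measure_cdf]; exact hm a
    rw [StieltjesFunction.measure_singleton, ENNReal.ofReal_eq_zero] at h1
    exact le_antisymm ((monotone_cdf m).leftLim_le le_rfl) (by linarith)
  rcases eq_or_lt_of_le x.2.2 with hx1 | hx1
  · have : {t | cdf m t ≤ x} = univ := by
      ext t
      simp only [mem_setOf_eq, mem_univ, iff_true]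
      rw [hx1]
      exact cdf_le_one m t
    rw [this, measure_univ, hx1, ENNReal.ofReal_one]
  by_cases hne : ({t | cdf m t ≤ (x : ℝ)}).Nonempty
  · have hbdd : BddAbove {t | cdf m t ≤ (x : ℝ)} := by
      have h1 : ∀ᶠ t in atTop, (x : ℝ) < cdf m t :=
        (tendsto_cdf_atTop m).eventually (lt_mem_nhds hx1)
      obtain ⟨B, hB⟩ := h1.exists
      refine ⟨B, fun t ht => ?_⟩
      by_contra hlt
      push Not at hlt
      exact absurd ((monotone_cdf m) hlt.le) (not_le.2 (lt_of_le_of_lt ht hB))
    set a := sSup {t | cdf m t ≤ (x : ℝ)} with ha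
    have hlt : ∀ t < a, cdf m t ≤ x := by
      intro t ht
      obtain ⟨s, hs, hts⟩ := exists_lt_of_lt_csSup hne ht
      exact ((monotone_cdf m) hts.le).trans hs
    have hamem : cdf m a ≤ x := by
      rw [← hleft a]
      refine le_of_tendsto ((monotone_cdf m).tendsto_leftLim a) ?_
      exact eventually_nhdsWithin_of_forall fun t ht => hlt t ht
    have hset : {t | cdf m t ≤ (x : ℝ)} = Iic a := by
      ext t
      constructor
      · intro ht
        exact le_csSup hbdd ht
      · intro ht
        exact ((monotone_cdf m) ht).trans hamem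
    have hge : (x : ℝ) ≤ cdf m a := by
      have h1 : ContinuousWithinAt (cdf m) (Ioi a) a :=
        ((cdf m).right_continuous a).mono Ioi_subset_Ici_self
      refine ge_of_tendsto h1 ?_
      refine eventually_nhdsWithin_of_forall fun t ht => ?_
      by_contra hcon
      push Not at hcon
      exact absurd (le_csSup hbdd hcon.le) (not_le.2 ht)
    rw [hset, ← ofReal_cdf, le_antisymm hamem hge]
  · rw [not_nonempty_iff_eq_empty] at hne
    rw [hne, measure_empty]
    have h0 : (x : ℝ) ≤ 0 := by
      refine ge_of_tendsto (tendsto_cdf_atBot m) (Eventually.of_forall fun t => ?_)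
      by_contra hcon
      push Not at hcon
      have : t ∈ {t | cdf m t ≤ (x : ℝ)} := hcon.le
      rw [hne] at this
      exact this
    rw [ENNReal.ofReal_of_nonpos h0]

/-- Every finite non-atomic measure on a standard Borel space can be mapped into the unit interval
with an image absolutely continuous with respect to Lebesgue measure. -/
theorem exists_map_unit {Y : Type} [MeasurableSpace Y] [StandardBorelSpace Y] (ν : Measure Y)
    (hν : ν univ < ⊤) (hat : ∀ y, ν {y} = 0) :
    ∃ F : Y → I, Measurable F ∧ ν.map F ≪ (volume : Measure I) := by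
  by_cases h0 : ν = 0
  · refine ⟨fun _ => 0, measurable_const, ?_⟩
    rw [h0, Measure.map_zero]
    exact Measure.AbsolutelyContinuous.zero _
  haveI : IsFiniteMeasure ν := ⟨hν⟩
  haveI : NeZero ν := ⟨h0⟩
  obtain ⟨φ, hφ⟩ := exists_measurableEmbedding_real Y
  set P : Measure Y := (ν univ)⁻¹ • ν with hP
  haveI hPp : IsProbabilityMeasure P := by
    refine ⟨?_⟩
    rw [hP, Measure.smul_apply, smul_eq_mul, ENNReal.inv_mul_cancel]
    · exact (Measure.measure_univ_ne_zero).2 h0
    · exact hν.ne
  haveI : IsProbabilityMeasure (P.map φ) := Measure.isProbabilityMeasure_map hφ.measurable.aemeasurable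
  have hm : ∀ x, (P.map φ) {x} = 0 := by
    intro x
    rw [hφ.map_apply]
    have hsub : (φ ⁻¹' {x}).Subsingleton := fun a ha b hb => hφ.injective (ha.trans hb.symm)
    rcases hsub.eq_empty_or_singleton with h | ⟨a, h⟩
    · rw [h, measure_empty]
    · rw [h, hP, Measure.smul_apply, hat a, smul_zero]
  refine ⟨fun y => ⟨cdf (P.map φ) (φ y), cdf_nonneg _ _, cdf_le_one _ _⟩,
    ((monotone_cdf (P.map φ)).measurable.comp hφ.measurable).subtype_mk, ?_⟩
  have h1 := map_cdf (P.map φ) hm
  have h2 : P.map (fun y => (⟨cdf (P.map φ) (φ y), cdf_nonneg _ _, cdf_le_one _ _⟩ : I)) = volume := by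
    rw [← h1, Measure.map_map _ hφ.measurable]
    · rfl
    · exact (monotone_cdf (P.map φ)).measurable.subtype_mk
  have h3 : ν ≪ P := by
    intro s hs
    rw [hP, Measure.smul_apply, smul_eq_mul, mul_eq_zero] at hs
    rcases hs with h | h
    · exact absurd h (ENNReal.inv_ne_zero.2 hν.ne)
    · exact h
  rw [← h2]
  exact h3.map ((monotone_cdf (P.map φ)).measurable.comp hφ.measurable).subtype_mk

/-- Random points of a set of positive measure. -/
theorem exists_random {Y X : Type} [MeasurableSpace Y] [MeasurableSpace X] [StandardBorelSpace X]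
    (ν : Measure Y) {F : Y → I} (hF : Measurable F) (hFν : ν.map F ≪ (volume : Measure I))
    (μ : Measure X) (hμ : μ univ < ⊤) (G : Set X) (hG : MeasurableSet G) (hG0 : μ G ≠ 0) :
    ∃ r : Y → X, Measurable r ∧ (∀ᵐ y ∂ν, r y ∈ G) ∧ ∀ N : Set X, μ N = 0 → ∀ᵐ y ∂ν, r y ∉ N := by
  haveI : IsFiniteMeasure μ := ⟨hμ⟩
  haveI : Nonempty X := by
    by_contra h
    rw [not_nonempty_iff] at h
    exact hG0 (by rw [Set.eq_empty_of_isEmpty G, measure_empty])
  haveI : IsProbabilityMeasure (cond μ G) := cond_isProbabilityMeasure hG0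
  obtain ⟨f, hf, hfm⟩ := Measure.exists_measurable_map_eq (cond μ G)
  have key : ∀ B : Set X, MeasurableSet B → (cond μ G) B = 0 → ∀ᵐ y ∂ν, f (F y) ∉ B := by
    intro B hB hB0
    rw [← hfm, Measure.map_apply hf hB] at hB0
    have h1 := hFν hB0
    rw [Measure.map_apply hF (hf hB)] at h1
    filter_upwards [measure_eq_zero_iff_ae_notMem.1 h1] with y hy
    exact hy
  refine ⟨fun y => f (F y), hf.comp hF, ?_, ?_⟩
  · have h1 : (cond μ G) Gᶜ = 0 := by
      rw [cond_apply hG]
      simp
    filter_upwards [key Gᶜ hG.compl h1] with y hy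
    simpa using hy
  · intro N hN
    have h1 : (cond μ G) (toMeasurable μ N) = 0 := by
      have h2 : μ (toMeasurable μ N) = 0 := by rw [measure_toMeasurable]; exact hN
      exact cond_absolutelyContinuous h2
    filter_upwards [key _ (measurableSet_toMeasurable μ N) h1] with y hy hyN
    exact hy (subset_toMeasurable μ N hyN)

end Pool.Agent.Y569.UN
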