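import Pool.Agent.Y569.UN.Tree
import Pool.Agent.Y569.UN.Map

/-!
# Random schemes of points
-/

set_option autoImplicit false
set_option linter.all false

open Set Filter Topology MeasureTheory

namespace Pool.Agent.Y569.UN

/-- the points of level `m` above `w` -/
def gs (μ : Measure (ℕ → Bool)) (ℓ : ℕ → ℕ) (U : ℕ → Set (ℕ → Bool)) (m : ℕ) (w : ℕ → Bool) :
    Set (ℕ → Bool) := {v | v ∈ cyl w (ℓ m) ∧ v ∈ U m ∧ (∀ j, m < j → v ∉ U j) ∧ v ∈ Sp μ}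

/-- the possible roots -/
def g0 (μ : Measure (ℕ → Bool)) (U : ℕ → Set (ℕ → Bool)) : Set (ℕ → Bool) :=
  {v | (∀ j, v ∉ U j) ∧ v ∈ Sp μ}

/-- the tree -/
structure IsTree (μ : Measure (ℕ → Bool)) (ℓ : ℕ → ℕ) (U : ℕ → Set (ℕ → Bool)) : Prop where
  mono : StrictMono ℓ
  det : ∀ j v w, v ∈ cyl w (ℓ (j + 1)) → (v ∈ U j ↔ w ∈ U j)
  pos : ∀ j w, μ (cyl w (ℓ j)) ≠ 0 → μ (cyl w (ℓ j) ∩ U j) ≠ 0
  small : ∀ j, ∃ δ : ENNReal, (∀ w, μ (cyl w (ℓ j)) ≠ 0 → δ ≤ μ (cyl w (ℓ j))) ∧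
        μ (U j) ≤ (2⁻¹ : ENNReal) ^ (j + 2) * δ

theorem IsTree.meas {μ : Measure (ℕ → Bool)} {ℓ : ℕ → ℕ} {U : ℕ → Set (ℕ → Bool)}
    (h : IsTree μ ℓ U) (j : ℕ) : MeasurableSet (U j) := by
  classical
  have h1 : U j = ⋃ σ : Fin (ℓ (j + 1)) → Bool, if ext σ ∈ U j then cyl (ext σ) (ℓ (j + 1)) else ∅ := by
    ext w
    simp only [mem_iUnion]
    constructor
    · intro hw
      refine ⟨res _ w, ?_⟩
      rw [if_pos ((h.det j _ _ (ext_res_mem _ w)).2 hw), cyl_ext_res]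
      exact cyl_self w _
    · rintro ⟨σ, hσ⟩
      split_ifs at hσ with h2
      · exact (h.det j _ _ hσ).2 h2
      · exact absurd hσ (notMem_empty w)
  rw [h1]
  refine MeasurableSet.iUnion fun σ => ?_
  split_ifs
  · exact measurableSet_cyl _ _
  · exact MeasurableSet.empty

theorem IsTree.pos2 {μ : Measure (ℕ → Bool)} {ℓ : ℕ → ℕ} {U : ℕ → Set (ℕ → Bool)}
    (h : IsTree μ ℓ U) (hμ : μ univ < ⊤) {w : ℕ → Bool} (hw : w ∈ Sp μ) (j₀ : ℕ) :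
    μ (cyl w (ℓ j₀) ∩ {v | ∀ j, j₀ ≤ j → v ∉ U j}) ≠ 0 := by
  haveI : IsFiniteMeasure μ := ⟨hμ⟩
  intro h0
  set M := μ (cyl w (ℓ j₀)) with hM
  have hMpos : M ≠ 0 := hw (ℓ j₀)
  have hMtop : M ≠ ⊤ := measure_ne_top μ _
  have h1 : cyl w (ℓ j₀) ⊆ (cyl w (ℓ j₀) ∩ {v | ∀ j, j₀ ≤ j → v ∉ U j}) ∪
      ⋃ j : ℕ, (if j₀ ≤ j then U j else ∅) := by
    intro v hv
    by_cases hc : ∀ j, j₀ ≤ j → v ∉ U j
    · exact Or.inl ⟨hv, hc⟩
    · push Not at hc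
      obtain ⟨j, hj, hvj⟩ := hc
      refine Or.inr (mem_iUnion.2 ⟨j, ?_⟩)
      rw [if_pos hj]
      exact hvj
  have h2 : ∀ j : ℕ, μ (if j₀ ≤ j then U j else ∅) ≤ (2⁻¹ : ENNReal) ^ (j + 2) * M := by
    intro j
    split_ifs with hj
    · obtain ⟨δ, hδ1, hδ2⟩ := h.small j
      refine hδ2.trans (mul_le_mul_right ?_ _)
      exact (hδ1 w (hw _)).trans (measure_mono (cyl_anti w (h.mono.monotone hj)))
    · rw [measure_empty]
      exact zero_le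
  have h3 : M ≤ 2⁻¹ * M := by
    calc M ≤ μ ((cyl w (ℓ j₀) ∩ {v | ∀ j, j₀ ≤ j → v ∉ U j}) ∪
          ⋃ j : ℕ, (if j₀ ≤ j then U j else ∅)) := measure_mono h1
      _ ≤ μ (cyl w (ℓ j₀) ∩ {v | ∀ j, j₀ ≤ j → v ∉ U j}) +
          μ (⋃ j : ℕ, (if j₀ ≤ j then U j else ∅)) := measure_union_le _ _
      _ = μ (⋃ j : ℕ, (if j₀ ≤ j then U j else ∅)) := by rw [h0, zero_add]
      _ ≤ ∑' j : ℕ, μ (if j₀ ≤ j then U j else ∅) := measure_iUnion_le _
      _ ≤ ∑' j : ℕ, (2⁻¹ : ENNReal) ^ (j + 2) * M := ENNReal.tsum_le_tsum h2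
      _ = 2⁻¹ * M := by
          rw [ENNReal.tsum_mul_right]
          congr 1
          have h5 : ∀ j : ℕ, (2⁻¹ : ENNReal) ^ (j + 2) = (2⁻¹ : ENNReal) ^ j * (2⁻¹ * 2⁻¹) := by
            intro j
            rw [pow_add, pow_two]
          simp_rw [h5]
          rw [ENNReal.tsum_mul_right, ENNReal.tsum_geometric]
          have h6 : (1 - 2⁻¹ : ENNReal)⁻¹ = 2 := by
            rw [ENNReal.one_sub_inv_two, inv_inv]
          rw [h6, ← mul_assoc, ENNReal.mul_inv_cancel (by norm_num) (by norm_num), one_mul]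
  have h4 : 2⁻¹ * M < 1 * M := by
    refine (ENNReal.mul_lt_mul_iff_left hMpos hMtop).2 ?_
    exact ENNReal.one_half_lt_one
  rw [one_mul] at h4
  exact absurd h3 (not_le.2 h4)

theorem pos_inter_Sp {μ : Measure (ℕ → Bool)} {A : Set (ℕ → Bool)} (h : μ A ≠ 0) :
    μ (A ∩ Sp μ) ≠ 0 := by
  intro h0
  refine h (measure_mono_null ?_ (measure_union_null h0 (measure_compl_Sp μ)))
  intro w hw
  by_cases hs : w ∈ Sp μ
  · exact Or.inl ⟨hw, hs⟩
  · exact Or.inr hs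

theorem IsTree.gs_pos {μ : Measure (ℕ → Bool)} {ℓ : ℕ → ℕ} {U : ℕ → Set (ℕ → Bool)}
    (h : IsTree μ ℓ U) (hμ : μ univ < ⊤) {w : ℕ → Bool} (m : ℕ) (hw : μ (cyl w (ℓ m)) ≠ 0) :
    μ (gs μ ℓ U m w) ≠ 0 := by
  obtain ⟨w', ⟨h1, h2⟩, h3⟩ := exists_mem_Sp (h.pos m w hw)
  have h4 := pos_inter_Sp (h.pos2 hμ h3 (m + 1))
  intro h0
  refine h4 (measure_mono_null ?_ h0)
  rintro v ⟨⟨hv1, hv2⟩, hv3⟩
  refine ⟨?_, ?_, fun j hj => hv2 j hj, hv3⟩
  · rw [← cyl_eq h1]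
    exact cyl_anti w' (h.mono (Nat.lt_succ_self m)).le hv1
  · exact (h.det m v w' hv1).2 h2

theorem IsTree.g0_pos {μ : Measure (ℕ → Bool)} {ℓ : ℕ → ℕ} {U : ℕ → Set (ℕ → Bool)}
    (h : IsTree μ ℓ U) (hμ : μ univ < ⊤) (hμ0 : μ ≠ 0) : μ (g0 μ U) ≠ 0 := by
  have h1 : μ univ ≠ 0 := Measure.measure_univ_ne_zero.2 hμ0
  obtain ⟨w', _, h3⟩ := exists_mem_Sp h1
  have h4 := pos_inter_Sp (h.pos2 hμ h3 0)
  intro h0
  refine h4 (measure_mono_null ?_ h0)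
  rintro v ⟨⟨hv1, hv2⟩, hv3⟩
  exact ⟨fun j => hv2 j (Nat.zero_le j), hv3⟩

theorem IsTree.measurableSet_gs {μ : Measure (ℕ → Bool)} {ℓ : ℕ → ℕ} {U : ℕ → Set (ℕ → Bool)}
    (h : IsTree μ ℓ U) (m : ℕ) (w : ℕ → Bool) : MeasurableSet (gs μ ℓ U m w) := by
  have h1 : gs μ ℓ U m w = cyl w (ℓ m) ∩ (U m ∩ ((⋂ j : ℕ, if m < j then (U j)ᶜ else univ) ∩ Sp μ)) := by
    ext v
    simp only [gs, mem_setOf_eq, mem_inter_iff, mem_iInter]
    constructor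
    · rintro ⟨h1, h2, h3, h4⟩
      refine ⟨h1, h2, fun j => ?_, h4⟩
      split_ifs with hj
      · exact h3 j hj
      · exact mem_univ v
    · rintro ⟨h1, h2, h3, h4⟩
      refine ⟨h1, h2, fun j hj => ?_, h4⟩
      have := h3 j
      rw [if_pos hj] at this
      exact this
  rw [h1]
  refine (measurableSet_cyl _ _).inter ((h.meas m).inter (MeasurableSet.inter ?_ (measurableSet_Sp μ)))
  refine MeasurableSet.iInter fun j => ?_
  split_ifs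
  · exact (h.meas j).compl
  · exact MeasurableSet.univ

theorem IsTree.measurableSet_g0 {μ : Measure (ℕ → Bool)} {ℓ : ℕ → ℕ} {U : ℕ → Set (ℕ → Bool)}
    (h : IsTree μ ℓ U) : MeasurableSet (g0 μ U) := by
  have h1 : g0 μ U = (⋂ j : ℕ, (U j)ᶜ) ∩ Sp μ := by
    ext v
    simp [g0]
  rw [h1]
  exact (MeasurableSet.iInter fun j => (h.meas j).compl).inter (measurableSet_Sp μ)

/-- a family of random points -/
theorem IsTree.exists_family {μ : Measure (ℕ → Bool)} {ℓ : ℕ → ℕ} {U : ℕ → Set (ℕ → Bool)}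
    (h : IsTree μ ℓ U) (hμ : μ univ < ⊤) (hμ0 : μ ≠ 0) {Y : Type} [MeasurableSpace Y]
    (ν : Measure Y) {F : Y → unitInterval} (hF : Measurable F) (hFν : ν.map F ≪ (volume : Measure unitInterval)) :
    ∃ (d : Y → ℕ → Bool) (r : Y → ℕ → (ℕ → Bool) → (ℕ → Bool)),
      (∀ᵐ y ∂ν, d y ∈ g0 μ U ∧ ∀ m, ∀ w ∈ Sp μ, r y m w ∈ gs μ ℓ U m w) ∧
      ∀ N : Set (ℕ → Bool), μ N = 0 → ∀ᵐ y ∂ν, d y ∉ N ∧ ∀ m, ∀ w ∈ Sp μ, r y m w ∉ N := by
  classical
  obtain ⟨d, _, hd1, hd2⟩ := exists_random ν hF hFν μ hμ (g0 μ U) h.measurableSet_g0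
    (h.g0_pos hμ hμ0)
  have hr : ∀ (m : ℕ) (σ : Fin (ℓ m) → Bool), ∃ r : Y → ℕ → Bool, μ (gs μ ℓ U m (ext σ)) ≠ 0 →
      (∀ᵐ y ∂ν, r y ∈ gs μ ℓ U m (ext σ)) ∧ ∀ N : Set (ℕ → Bool), μ N = 0 → ∀ᵐ y ∂ν, r y ∉ N := by
    intro m σ
    by_cases h0 : μ (gs μ ℓ U m (ext σ)) = 0
    · exact ⟨fun _ _ => false, fun h1 => absurd h0 h1⟩
    · obtain ⟨r, _, h1, h2⟩ := exists_random ν hF hFν μ hμ _ (h.measurableSet_gs m (ext σ)) h0
      exact ⟨r, fun _ => ⟨h1, h2⟩⟩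
  choose r hr using hr
  have hgs : ∀ m w, gs μ ℓ U m (ext (res (ℓ m) w)) = gs μ ℓ U m w := by
    intro m w
    simp only [gs, cyl_ext_res]
  have hpos : ∀ m, ∀ w ∈ Sp μ, μ (gs μ ℓ U m (ext (res (ℓ m) w))) ≠ 0 := by
    intro m w hw
    rw [hgs]
    exact h.gs_pos hμ m (hw _)
  refine ⟨d, fun y m w => r m (res (ℓ m) w) y, ?_, ?_⟩
  · have h1 : ∀ᵐ y ∂ν, ∀ (m : ℕ) (σ : Fin (ℓ m) → Bool), μ (gs μ ℓ U m (ext σ)) ≠ 0 →
        r m σ y ∈ gs μ ℓ U m (ext σ) := by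
      rw [ae_all_iff]
      intro m
      rw [ae_all_iff]
      intro σ
      by_cases h0 : μ (gs μ ℓ U m (ext σ)) = 0
      · exact Eventually.of_forall fun y hy => absurd h0 hy
      · filter_upwards [(hr m σ h0).1] with y hy _
        exact hy
    filter_upwards [hd1, h1] with y hy1 hy2
    refine ⟨hy1, fun m w hw => ?_⟩
    have := hy2 m (res (ℓ m) w) (hpos m w hw)
    rw [hgs] at this
    exact this
  · intro N hN
    have h1 : ∀ᵐ y ∂ν, ∀ (m : ℕ) (σ : Fin (ℓ m) → Bool), μ (gs μ ℓ U m (ext σ)) ≠ 0 →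
        r m σ y ∉ N := by
      rw [ae_all_iff]
      intro m
      rw [ae_all_iff]
      intro σ
      by_cases h0 : μ (gs μ ℓ U m (ext σ)) = 0
      · exact Eventually.of_forall fun y hy => absurd h0 hy
      · filter_upwards [(hr m σ h0).2 N hN] with y hy _
        exact hy
    filter_upwards [hd2 N hN, h1] with y hy1 hy2
    exact ⟨hy1, fun m w hw => hy2 m (res (ℓ m) w) (hpos m w hw)⟩

/-! ### The scheme for a fixed parameter -/

/-- the points of the scheme -/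
def D (d : ℕ → Bool) (r : ℕ → (ℕ → Bool) → (ℕ → Bool)) (z : ℕ → ℕ) : ℕ → (ℕ → Bool)
  | 0 => d
  | k + 1 => r (z k) (D d r z k)

/-- the limit point -/
def W (d : ℕ → Bool) (r : ℕ → (ℕ → Bool) → (ℕ → Bool)) (z : ℕ → ℕ) : ℕ → Bool :=
  fun i => D d r z (i + 1) i

theorem D_congr (d : ℕ → Bool) (r : ℕ → (ℕ → Bool) → (ℕ → Bool)) {z z' : ℕ → ℕ} (n : ℕ)
    (h : ∀ i < n, z i = z' i) : D d r z n = D d r z' n := by
  induction n with
  | zero => rfl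
  | succ n ih =>
    show r (z n) (D d r z n) = r (z' n) (D d r z' n)
    rw [ih fun i hi => h i (Nat.lt_succ_of_lt hi), h n (Nat.lt_succ_self n)]

section scheme

variable {μ : Measure (ℕ → Bool)} {ℓ : ℕ → ℕ} {U : ℕ → Set (ℕ → Bool)} (h : IsTree μ ℓ U)
  {d : ℕ → Bool} {r : ℕ → (ℕ → Bool) → (ℕ → Bool)} (hd : d ∈ g0 μ U)
  (hr : ∀ m, ∀ w ∈ Sp μ, r m w ∈ gs μ ℓ U m w)

include hd hr

theorem D_mem_Sp (z : ℕ → ℕ) (k : ℕ) : D d r z k ∈ Sp μ := by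
  induction k with
  | zero => exact hd.2
  | succ k ih => exact (hr (z k) _ ih).2.2.2

theorem D_succ (z : ℕ → ℕ) (k : ℕ) : D d r z (k + 1) ∈ gs μ ℓ U (z k) (D d r z k) :=
  hr (z k) _ (D_mem_Sp hd hr z k)

include h

theorem D_agree {z : ℕ → ℕ} (hz : StrictMono z) {k k' : ℕ} (hk : k ≤ k') {i : ℕ}
    (hi : i < ℓ (z k)) : D d r z k' i = D d r z k i := by
  induction k', hk using Nat.le_induction with
  | base => rfl
  | succ k' hk ih =>
    rw [← ih]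
    refine (D_succ hd hr z k').1 i (lt_of_lt_of_le hi ?_)
    exact h.mono.monotone (hz.monotone hk)

theorem W_mem {z : ℕ → ℕ} (hz : StrictMono z) (k : ℕ) : W d r z ∈ cyl (D d r z k) (ℓ (z k)) := by
  intro i hi
  show D d r z (i + 1) i = D d r z k i
  rcases le_total k (i + 1) with hk | hk
  · exact D_agree h hd hr hz hk hi
  · refine (D_agree h hd hr hz hk ?_).symm
    have h1 : i + 1 ≤ z (i + 1) := hz.id_le (i + 1)
    have h2 : z (i + 1) ≤ ℓ (z (i + 1)) := h.mono.id_le _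
    omega

theorem D_U {z : ℕ → ℕ} (hz : StrictMono z) (k j : ℕ) : D d r z k ∈ U j ↔ ∃ i < k, z i = j := by
  induction k with
  | zero =>
    constructor
    · intro h1
      exact absurd h1 (hd.1 j)
    · rintro ⟨i, hi, _⟩
      exact absurd hi (Nat.not_lt_zero i)
  | succ k ih =>
    obtain ⟨h1, h2, h3, _⟩ := D_succ hd hr z k
    rcases lt_trichotomy j (z k) with hj | hj | hj
    · have h4 : D d r z (k + 1) ∈ cyl (D d r z k) (ℓ (j + 1)) :=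
        cyl_anti _ (h.mono.monotone hj) h1
      rw [h.det j _ _ h4, ih]
      constructor
      · rintro ⟨i, hi, hi2⟩
        exact ⟨i, Nat.lt_succ_of_lt hi, hi2⟩
      · rintro ⟨i, hi, hi2⟩
        refine ⟨i, ?_, hi2⟩
        rcases Nat.lt_succ_iff_lt_or_eq.1 hi with h5 | h5
        · exact h5
        · subst h5
          omega
    · subst hj
      exact ⟨fun _ => ⟨k, Nat.lt_succ_self k, rfl⟩, fun _ => h2⟩
    · constructor
      · intro h5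
        exact absurd h5 (h3 j hj)
      · rintro ⟨i, hi, hi2⟩
        have : z i ≤ z k := hz.monotone (Nat.le_of_lt_succ hi)
        omega

theorem W_U {z : ℕ → ℕ} (hz : StrictMono z) (j : ℕ) : W d r z ∈ U j ↔ ∃ k, z k = j := by
  have h1 : j + 1 ≤ z (j + 1) := hz.id_le (j + 1)
  have h2 : W d r z ∈ cyl (D d r z (j + 1)) (ℓ (j + 1)) :=
    cyl_anti _ (h.mono.monotone h1) (W_mem h hd hr hz (j + 1))
  rw [h.det j _ _ h2, D_U h hd hr hz]
  constructor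
  · rintro ⟨i, _, hi⟩
    exact ⟨i, hi⟩
  · rintro ⟨k, hk⟩
    refine ⟨k, ?_, hk⟩
    have := hz.id_le k
    simp only [id_eq] at this
    omega

theorem bound {C : Set (ℕ → Bool)} (hC : IsClosed C) (hdC : d ∉ C)
    (hrC : ∀ m, ∀ w ∈ Sp μ, r m w ∉ C) :
    ∃ g : ℕ → ℕ, ∀ z : ℕ → ℕ, StrictMono z → W d r z ∈ C → ∀ n, z n ≤ g n := by
  classical
  have hDC : ∀ z k, D d r z k ∉ C := by
    intro z k
    cases k with
    | zero => exact hdC
    | succ k => exact hrC _ _ (D_mem_Sp hd hr z k)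
  have key : ∀ n : ℕ, ∃ b : ℕ, ∀ z : ℕ → ℕ, StrictMono z → W d r z ∈ C → z n ≤ b := by
    intro n
    induction n using Nat.strong_induction_on with
    | _ n ih =>
      choose! b hb using ih
      set G : ℕ := ∑ i ∈ Finset.range n, b i with hG
      have hG' : ∀ z : ℕ → ℕ, StrictMono z → W d r z ∈ C → ∀ i < n, z i ≤ G := by
        intro z hz hc i hi
        refine (hb i hi z hz hc).trans ?_
        exact Finset.single_le_sum (f := b) (fun _ _ => Nat.zero_le _) (Finset.mem_range.2 hi)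
      let ex : (Fin n → Fin (G + 1)) → ℕ → ℕ := fun τ i => if h : i < n then (τ ⟨i, h⟩ : ℕ) else 0
      choose m hm using fun τ : Fin n → Fin (G + 1) => exists_cyl hC (hDC (ex τ) n)
      refine ⟨∑ τ : Fin n → Fin (G + 1), m τ, ?_⟩
      intro z hz hc
      by_contra hlt
      push Not at hlt
      let τ : Fin n → Fin (G + 1) := fun i => ⟨z i, Nat.lt_succ_of_le (hG' z hz hc i i.2)⟩
      have hle : m τ ≤ ∑ τ : Fin n → Fin (G + 1), m τ :=
        Finset.single_le_sum (f := m) (fun _ _ => Nat.zero_le _) (Finset.mem_univ τ)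
      have h1 : D d r (ex τ) n = D d r z n := by
        refine D_congr d r n fun i hi => ?_
        simp [ex, hi, τ]
      have h2 : z n ≤ ℓ (z n) := h.mono.id_le _
      have h3 : W d r z ∈ cyl (D d r (ex τ) n) (m τ) := by
        rw [h1]
        refine cyl_anti _ ?_ (W_mem h hd hr hz n)
        omega
      exact hm τ _ h3 hc
  choose g hg using key
  exact ⟨g, fun z hz hc n => hg n z hz hc⟩

end scheme

end Pool.Agent.Y569.UN
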