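import Pool.Agent.H65R4.Scale
import Pool.Agent.H65R4.Meas
import Pool.Agent.Y569.UN.Scheme
import Pool.Agent.Y569.UN.Scale2

/-!
# For every non-atomic measure on the Cantor space there is a universally null set which is not
covered by countably many closed null sets
-/

set_option autoImplicit false
set_option linter.all false

open Set Filter Topology Cardinal MeasureTheory

namespace Pool.Agent.Y569.UN

open Pool.Agent.H65R4

/-- finite non-atomic measures -/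
def FNA {X : Type} [MeasurableSpace X] (μ : Measure X) : Prop := μ univ < ⊤ ∧ ∀ x, μ {x} = 0

/-- universally null sets -/
def UNull {X : Type} [MeasurableSpace X] (A : Set X) : Prop := ∀ μ : Measure X, FNA μ → μ A = 0

/-- the code of a function and a real -/
def zc (x : ℕ → ℕ) (c : ℕ → Bool) (k : ℕ) : ℕ :=
  (x k + 2 * k + 2) * (x k + 2 * k + 2) + (2 * k + (c k).toNat)

theorem sq_unique {a b a' b' : ℕ} (hb : b < a) (hb' : b' < a') (h : a * a + b = a' * a' + b') :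
    a = a' ∧ b = b' := by
  have h1 : a = a' := by
    rcases lt_trichotomy a a' with h2 | h2 | h2
    · have h3 : a + 1 ≤ a' := h2
      have h4 : (a + 1) * (a + 1) ≤ a' * a' := Nat.mul_le_mul h3 h3
      nlinarith
    · exact h2
    · have h3 : a' + 1 ≤ a := h2
      have h4 : (a' + 1) * (a' + 1) ≤ a * a := Nat.mul_le_mul h3 h3
      nlinarith
  subst h1
  exact ⟨rfl, by omega⟩

theorem toNat_lt (x : ℕ → ℕ) (c : ℕ → Bool) (k : ℕ) :
    2 * k + (c k).toNat < x k + 2 * k + 2 := by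
  have : (c k).toNat ≤ 1 := Bool.toNat_le _
  omega

theorem zc_strictMono {x : ℕ → ℕ} (hx : Monotone x) (c : ℕ → Bool) : StrictMono (zc x c) := by
  refine strictMono_nat_of_lt_succ fun k => ?_
  have h1 : x k ≤ x (k + 1) := hx (Nat.le_succ k)
  have h2 := toNat_lt x c k
  show (x k + 2 * k + 2) * (x k + 2 * k + 2) + (2 * k + (c k).toNat) <
    (x (k + 1) + 2 * (k + 1) + 2) * (x (k + 1) + 2 * (k + 1) + 2) + (2 * (k + 1) + (c (k + 1)).toNat)
  have h3 : x k + 2 * k + 2 + 1 ≤ x (k + 1) + 2 * (k + 1) + 2 := by omega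
  have h4 := Nat.mul_le_mul h3 h3
  nlinarith

theorem le_zc (x : ℕ → ℕ) (c : ℕ → Bool) (k : ℕ) : x k ≤ zc x c k := by
  unfold zc
  nlinarith [Nat.zero_le (x k * x k), Nat.zero_le (x k * k), Nat.zero_le (k * k)]

open Classical in
/-- decoding of the real -/
noncomputable def decC (U : ℕ → Set (ℕ → Bool)) (w : ℕ → Bool) : ℕ → Bool :=
  fun k => if ∃ a, 2 * k + 1 < a ∧ w ∈ U (a * a + (2 * k + 1)) then true else false

/-- decoding of the function -/
def Pa (U : ℕ → Set (ℕ → Bool)) (n a : ℕ) (w : ℕ → Bool) : Prop :=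
  (2 * n < a ∧ w ∈ U (a * a + 2 * n)) ∨ (2 * n + 1 < a ∧ w ∈ U (a * a + (2 * n + 1)))

theorem decC_eq {U : ℕ → Set (ℕ → Bool)} {w : ℕ → Bool} {x : ℕ → ℕ} {c : ℕ → Bool}
    (hw : ∀ j, w ∈ U j ↔ ∃ k, zc x c k = j) : decC U w = c := by
  funext k
  unfold decC
  cases hc : c k
  · refine if_neg ?_
    rintro ⟨a, ha, hU⟩
    obtain ⟨k', hk'⟩ := (hw _).1 hU
    obtain ⟨h1, h2⟩ := sq_unique (toNat_lt x c k') ha hk'
    have h3 : (c k').toNat ≤ 1 := Bool.toNat_le _
    have h4 : k' = k := by omega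
    subst h4
    rw [hc] at h2
    simp at h2
  · refine if_pos ?_
    have h1 := toNat_lt x c k
    rw [hc] at h1
    simp only [Bool.toNat_true] at h1
    refine ⟨x k + 2 * k + 2, h1, (hw _).2 ⟨k, ?_⟩⟩
    unfold zc
    rw [hc]
    rfl

theorem Pa_iff {U : ℕ → Set (ℕ → Bool)} {w : ℕ → Bool} {x : ℕ → ℕ} {c : ℕ → Bool}
    (hw : ∀ j, w ∈ U j ↔ ∃ k, zc x c k = j) (n a : ℕ) : Pa U n a w ↔ a = x n + 2 * n + 2 := by
  constructor
  · rintro (⟨ha, hU⟩ | ⟨ha, hU⟩)
    · obtain ⟨k', hk'⟩ := (hw _).1 hU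
      obtain ⟨h1, h2⟩ := sq_unique (toNat_lt x c k') ha hk'
      have h3 : (c k').toNat ≤ 1 := Bool.toNat_le _
      have h4 : k' = n := by omega
      subst h4
      exact h1.symm
    · obtain ⟨k', hk'⟩ := (hw _).1 hU
      obtain ⟨h1, h2⟩ := sq_unique (toNat_lt x c k') ha hk'
      have h3 : (c k').toNat ≤ 1 := Bool.toNat_le _
      have h4 : k' = n := by omega
      subst h4
      exact h1.symm
  · rintro rfl
    have h1 := toNat_lt x c n
    cases hc : c n
    · left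
      rw [hc] at h1
      simp only [Bool.toNat_false] at h1
      refine ⟨h1, (hw _).2 ⟨n, ?_⟩⟩
      unfold zc
      rw [hc]
      rfl
    · right
      rw [hc] at h1
      simp only [Bool.toNat_true] at h1
      refine ⟨h1, (hw _).2 ⟨n, ?_⟩⟩
      unfold zc
      rw [hc]
      rfl

theorem measurable_decC {U : ℕ → Set (ℕ → Bool)} (hU : ∀ j, MeasurableSet (U j)) :
    Measurable (decC U) := by
  classical
  refine measurable_pi_iff.2 fun k => ?_
  have h1 : MeasurableSet {w : ℕ → Bool | ∃ a, 2 * k + 1 < a ∧ w ∈ U (a * a + (2 * k + 1))} := by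
    have : {w : ℕ → Bool | ∃ a, 2 * k + 1 < a ∧ w ∈ U (a * a + (2 * k + 1))} =
        ⋃ a : ℕ, if 2 * k + 1 < a then U (a * a + (2 * k + 1)) else ∅ := by
      ext w
      simp only [mem_setOf_eq, mem_iUnion]
      constructor
      · rintro ⟨a, ha, hw⟩
        exact ⟨a, by rw [if_pos ha]; exact hw⟩
      · rintro ⟨a, ha⟩
        split_ifs at ha with h2
        · exact ⟨a, h2, ha⟩
        · exact absurd ha (notMem_empty w)
    rw [this]
    refine MeasurableSet.iUnion fun a => ?_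
    split_ifs
    · exact hU _
    · exact MeasurableSet.empty
  have h2 : (fun w => decC U w k) =
      fun w => if w ∈ {w : ℕ → Bool | ∃ a, 2 * k + 1 < a ∧ w ∈ U (a * a + (2 * k + 1))} then true
        else false := by
    funext w
    unfold decC
    by_cases h : ∃ a, 2 * k + 1 < a ∧ w ∈ U (a * a + (2 * k + 1))
    · rw [if_pos h, if_pos]; exact h
    · rw [if_neg h, if_neg]; exact h
  rw [h2]
  exact Measurable.ite h1 measurable_const measurable_const

theorem measurableSet_Pa {U : ℕ → Set (ℕ → Bool)} (hU : ∀ j, MeasurableSet (U j)) (n a : ℕ) :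
    MeasurableSet {w : ℕ → Bool | Pa U n a w} := by
  have h1 : {w : ℕ → Bool | Pa U n a w} = {w : ℕ → Bool | 2 * n < a ∧ w ∈ U (a * a + 2 * n)} ∪
      {w : ℕ → Bool | 2 * n + 1 < a ∧ w ∈ U (a * a + (2 * n + 1))} := rfl
  rw [h1]
  refine MeasurableSet.union ?_ ?_
  · by_cases h : 2 * n < a
    · convert hU (a * a + 2 * n) using 1
      ext w
      simp [h]
    · convert MeasurableSet.empty using 1
      ext w
      simp [h]
  · by_cases h : 2 * n + 1 < a
    · convert hU (a * a + (2 * n + 1)) using 1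
      ext w
      simp [h]
    · convert MeasurableSet.empty using 1
      ext w
      simp [h]

/-- `A` is at most as large as the larger one of any nonnull set and any unbounded family. -/
def Sm {X : Type} (A : Set X) : Prop := ∀ (T : Set (ℕ → Bool)) (ν : Measure (ℕ → Bool)), FNA ν →
  ν T ≠ 0 → ∀ 𝓕 : Set (ℕ → ℕ), (∀ g : ℕ → ℕ, ∃ f ∈ 𝓕, ¬ ∀ᶠ n in atTop, f n ≤ g n) →
    #A ≤ max #T #𝓕

theorem core (μ : Measure (ℕ → Bool)) (hμ : FNA μ) (hμ0 : μ ≠ 0) :
    ∃ A : Set (ℕ → Bool), UNull A ∧ Sm A ∧ ∀ C : ℕ → Set (ℕ → Bool), (∀ n, IsClosed (C n)) →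
      μ (⋃ n, C n) = 0 → ¬ A ⊆ ⋃ n, C n := by
  classical
  obtain ⟨ℓ, U, ht1, ht2, ht3, ht4⟩ := exists_tree hμ.1 hμ.2
  have ht : IsTree μ ℓ U := ⟨ht1, ht2, ht3, ht4⟩
  -- the least size of a nonnull set
  let S : Set Cardinal.{0} := {κ | ∃ ν : Measure (ℕ → Bool), FNA ν ∧
    ∃ T : Set (ℕ → Bool), ν T ≠ 0 ∧ #T = κ}
  have hSne : S.Nonempty :=
    ⟨_, μ, hμ, univ, Measure.measure_univ_ne_zero.2 hμ0, rfl⟩
  obtain ⟨ν, hν, T₁, hT₁, hT₁κ⟩ := csInf_mem hSne
  set κ : Cardinal.{0} := sInf S with hκ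
  have hmin : ∀ ν : Measure (ℕ → Bool), FNA ν → ∀ T' : Set (ℕ → Bool),
      #T' < κ → ν T' = 0 := by
    intro ν' hν' T' hT'
    by_contra hcon
    exact absurd (csInf_le' (show #T' ∈ S from ⟨ν', hν', T', hcon, rfl⟩)) (not_le.2 hT')
  have hcount : ∀ μ : Measure (ℕ → Bool), FNA μ → ∀ C : Set (ℕ → Bool), C.Countable → μ C = 0 := by
    intro μ hμ C hC
    have : C = ⋃ x ∈ C, {x} := by simp
    rw [this, measure_biUnion_null_iff hC]
    exact fun x _ => hμ.2 x
  -- the random family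
  obtain ⟨F, hF, hFν⟩ := exists_map_unit ν hν.1 hν.2
  obtain ⟨d, r, hgood, hnull⟩ := ht.exists_family hμ.1 hμ0 ν hF hFν
  obtain ⟨T, hTsub, hT, hTκ⟩ : ∃ T : Set (ℕ → Bool), (∀ y ∈ T, d y ∈ g0 μ U ∧
      ∀ m, ∀ w ∈ Sp μ, r y m w ∈ gs μ ℓ U m w) ∧ ν T ≠ 0 ∧ #T = κ := by
    refine ⟨T₁ ∩ {y | d y ∈ g0 μ U ∧ ∀ m, ∀ w ∈ Sp μ, r y m w ∈ gs μ ℓ U m w},
      fun y hy => hy.2, ?_, ?_⟩
    · intro h0
      refine hT₁ (measure_mono_null ?_ (measure_union_null h0 (ae_iff.1 hgood)))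
      intro y hy
      by_cases h1 : d y ∈ g0 μ U ∧ ∀ m, ∀ w ∈ Sp μ, r y m w ∈ gs μ ℓ U m w
      · exact Or.inl ⟨hy, h1⟩
      · exact Or.inr h1
    · refine le_antisymm ?_ ?_
      · exact (Cardinal.mk_le_mk_of_subset inter_subset_left).trans_eq hT₁κ
      · by_contra hcon
        push Not at hcon
        have h0 := hmin ν hν _ hcon
        refine hT₁ (measure_mono_null ?_ (measure_union_null h0 (ae_iff.1 hgood)))
        intro y hy
        by_cases h1 : d y ∈ g0 μ U ∧ ∀ m, ∀ w ∈ Sp μ, r y m w ∈ gs μ ℓ U m w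
        · exact Or.inl ⟨hy, h1⟩
        · exact Or.inr h1
  have hℵ : ℵ₀ ≤ κ := by
    by_contra hcon
    push Not at hcon
    rw [← hTκ, Cardinal.lt_aleph0_iff_set_finite] at hcon
    exact hT (hcount ν hν T hcon.countable)
  haveI : IsFiniteMeasure ν := ⟨hν.1⟩
  -- indices
  let I : Type := κ.ord.ToType
  have hI : #I = κ := by simp [I]
  obtain ⟨e⟩ : Nonempty (I ≃ T) := Cardinal.eq.1 (hI.trans hTκ.symm)
  have hIic : ∀ ξ : I, #(Iic ξ) < κ := by
    intro ξ
    have h1 : #(Iio ξ) < κ := by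
      have := Cardinal.mk_Iio_lt ξ (by simp [I])
      rwa [hI] at this
    have h2 : (Iic ξ : Set I) = insert ξ (Iio ξ) := Iio_insert.symm
    rw [h2]
    refine (Cardinal.mk_insert_le).trans_lt ?_
    exact Cardinal.add_lt_of_lt hℵ h1 (Cardinal.one_lt_aleph0.trans_le hℵ)
  obtain ⟨N, hNm, hNs, hNu⟩ := exists_universal_null ν
  have hc : ∀ ξ : I, ∃ c : ℕ → Bool, ∀ η ≤ ξ, (c, (e η : ℕ → Bool)) ∈ N := by
    intro ξ
    have h1 : ν ((fun η : I => (e η : ℕ → Bool)) '' Iic ξ) = 0 :=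
      hmin ν hν _ (Cardinal.mk_image_le.trans_lt (hIic ξ))
    obtain ⟨c, hc⟩ := hNu _ h1
    exact ⟨c, fun η hη => hc _ ⟨η, hη, rfl⟩⟩
  choose c hc using hc
  obtain ⟨J, _, _, x, hmono, hlt, hunb, hJc⟩ := exists_scale2
  -- the set
  let a : J × I → ℕ → Bool := fun p => W (d (e p.2)) (r (e p.2)) (zc (x p.1) (c p.2))
  have haU : ∀ p j, a p ∈ U j ↔ ∃ k, zc (x p.1) (c p.2) k = j := by
    intro p j
    obtain ⟨h1, h2⟩ := hTsub (e p.2) (e p.2).2
    exact W_U ht h1 h2 (zc_strictMono (hmono p.1) (c p.2)) j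
  have haC : ∀ p, decC U (a p) = c p.2 := fun p => decC_eq (haU p)
  let G : Set ((ℕ → Bool) × (ℕ → Bool)) := {p | ∃ m : ℕ, ∀ n, m ≤ n → ∃ b b' : ℕ, b < b' ∧
    Pa U n b p.1 ∧ Pa U n b' p.2}
  have hGiff : ∀ p q, (a p, a q) ∈ G ↔ EvLt (x p.1) (x q.1) := by
    intro p q
    show (∃ m : ℕ, ∀ n, m ≤ n → ∃ b b' : ℕ, b < b' ∧ Pa U n b (a p) ∧ Pa U n b' (a q)) ↔ _
    simp only [EvLt, eventually_atTop]
    refine exists_congr fun m => forall_congr' fun n => forall_congr' fun hn => ?_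
    constructor
    · rintro ⟨b, b', hb, h1, h2⟩
      rw [Pa_iff (haU p)] at h1
      rw [Pa_iff (haU q)] at h2
      omega
    · intro h
      exact ⟨_, _, by omega, (Pa_iff (haU p) n _).2 rfl, (Pa_iff (haU q) n _).2 rfl⟩
  have hGm : MeasurableSet G := by
    have h1 : G = ⋃ m : ℕ, ⋂ n : ℕ, {p : (ℕ → Bool) × (ℕ → Bool) | m ≤ n → ∃ b b' : ℕ, b < b' ∧
        Pa U n b p.1 ∧ Pa U n b' p.2} := by
      ext p
      simp only [G, mem_setOf_eq, mem_iUnion, mem_iInter]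
    rw [h1]
    refine MeasurableSet.iUnion fun m => MeasurableSet.iInter fun n => ?_
    by_cases hmn : m ≤ n
    · have h2 : {p : (ℕ → Bool) × (ℕ → Bool) | m ≤ n → ∃ b b' : ℕ, b < b' ∧
          Pa U n b p.1 ∧ Pa U n b' p.2} = ⋃ b : ℕ, ⋃ b' : ℕ, if b < b' then
            ({w | Pa U n b w} ×ˢ {w | Pa U n b' w}) else ∅ := by
        ext p
        simp only [mem_setOf_eq, mem_iUnion]
        constructor
        · intro h
          obtain ⟨b, b', hb, h3, h4⟩ := h hmn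
          refine ⟨b, b', ?_⟩
          rw [if_pos hb]
          exact ⟨h3, h4⟩
        · rintro ⟨b, b', h⟩ _
          split_ifs at h with hb
          · exact ⟨b, b', hb, h.1, h.2⟩
          · exact absurd h (notMem_empty p)
      rw [h2]
      refine MeasurableSet.iUnion fun b => MeasurableSet.iUnion fun b' => ?_
      split_ifs
      · exact (measurableSet_Pa ht.meas n b).prod (measurableSet_Pa ht.meas n b')
      · exact MeasurableSet.empty
    · convert MeasurableSet.univ using 1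
      ext p
      simp [hmn]
  have hUN : UNull (range a) := by
    intro μ' hμ'
    haveI : IsFiniteMeasure μ' := ⟨hμ'.1⟩
    have hlev : ∀ (γ : I) (i : J), μ' (a '' {p | p.1 = i ∧ p.2 ≤ γ}) = 0 := by
      intro γ i
      refine hmin μ' hμ' _ ?_
      have h1 : a '' {p | p.1 = i ∧ p.2 ≤ γ} ⊆ (fun j : I => a (i, j)) '' Iic γ := by
        rintro _ ⟨⟨i', j⟩, ⟨rfl, hj⟩, rfl⟩
        exact ⟨j, hj, rfl⟩
      exact (Cardinal.mk_le_mk_of_subset h1).trans_lt (Cardinal.mk_image_le.trans_lt (hIic γ))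
    have hpart : ∀ (γ : I) (J₀ : Set J), (∀ i ∈ J₀, ∀ i' < i, i' ∈ J₀) →
        (∀ i ∈ J₀, μ' (a '' {p | p.1 < i ∧ p.2 ≤ γ}) = 0) →
        μ' (a '' {p | p.1 ∈ J₀ ∧ p.2 ≤ γ}) = 0 := by
      intro γ J₀ _ hJ₀
      refine rank_null μ' _ hGm ?_ ?_
      · rintro _ ⟨⟨i', j'⟩, ⟨hi', hj'⟩, rfl⟩
        refine measure_mono_null ?_ (hJ₀ i' hi')
        rintro _ ⟨⟨⟨i, j⟩, ⟨hi, hj⟩, rfl⟩, hG⟩
        have hG' : EvLt (x i) (x i') := (hGiff (i, j) (i', j')).1 hG
        refine ⟨(i, j), ⟨?_, hj⟩, rfl⟩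
        by_contra hcon
        rcases (not_lt.1 hcon).lt_or_eq with h | h
        · exact (hG'.trans (hlt _ _ h)).irrefl
        · simp only at h
          subst h
          exact hG'.irrefl
      · rintro _ ⟨⟨i, j⟩, ⟨hi, hj⟩, rfl⟩
        refine measure_mono_null ?_ (measure_union_null (hJ₀ i hi) (hlev γ i))
        rintro _ ⟨⟨⟨i', j'⟩, ⟨hi', hj'⟩, rfl⟩, hG⟩
        have hG' : ¬ EvLt (x i) (x i') := fun h => hG ((hGiff (i, j) (i', j')).2 h)
        by_cases h : i' < i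
        · exact Or.inl ⟨(i', j'), ⟨h, hj'⟩, rfl⟩
        · right
          have h' : i' = i := by
            rcases (not_lt.1 h).lt_or_eq with h2 | h2
            · exact absurd (hlt _ _ h2) hG'
            · exact h2.symm
          exact ⟨(i', j'), ⟨h', hj'⟩, rfl⟩
    have hinit : ∀ (γ : I) (i : J), μ' (a '' {p | p.1 < i ∧ p.2 ≤ γ}) = 0 := by
      intro γ i
      induction i using WellFoundedLT.induction with
      | _ i ih =>
        exact hpart γ (Iio i) (fun i1 h1 i2 h2 => h2.trans h1) fun i1 h1 => ih i1 h1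
    have hall : ∀ γ : I, μ' (a '' {p | p.2 ≤ γ}) = 0 := by
      intro γ
      have := hpart γ univ (fun _ _ _ _ => mem_univ _) fun i _ => hinit γ i
      simpa using this
    -- Fubini
    let B : Set ((ℕ → Bool) × (ℕ → Bool)) := {p | (decC U p.1, p.2) ∈ N}
    have hBm : MeasurableSet B :=
      hNm.preimage (((measurable_decC ht.meas).comp measurable_fst).prodMk measurable_snd)
    have hB0 : (μ'.prod ν) B = 0 := by
      rw [Measure.measure_prod_null hBm]
      exact Eventually.of_forall fun z => hNs (decC U z)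
    have hB1 : ∀ᵐ y ∂ν, μ' {z | (z, y) ∈ B} = 0 := by
      have h1 : (ν.prod μ') (Prod.swap ⁻¹' B) = 0 := by
        rw [← Measure.map_apply measurable_swap hBm, Measure.prod_swap]
        exact hB0
      rw [Measure.measure_prod_null (measurable_swap hBm)] at h1
      exact h1
    obtain ⟨γ, hγ⟩ : ∃ γ : I, μ' {z | (z, (e γ : ℕ → Bool)) ∈ B} = 0 := by
      by_contra hcon
      push Not at hcon
      refine hT (measure_mono_null ?_ hB1)
      intro y hy hy'
      have := hcon (e.symm ⟨y, hy⟩)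
      rw [Equiv.apply_symm_apply] at this
      exact this hy'
    refine measure_mono_null ?_ (measure_union_null hγ (hall γ))
    rintro _ ⟨p, rfl⟩
    by_cases hp : p.2 ≤ γ
    · exact Or.inr ⟨p, hp, rfl⟩
    · left
      show (decC U (a p), (e γ : ℕ → Bool)) ∈ N
      rw [haC]
      exact hc _ _ (not_le.1 hp).le
  refine ⟨range a, hUN, ?_, ?_⟩
  · intro T' ν' hν' hT' 𝓕 h𝓕
    have h1 : κ ≤ #T' := csInf_le' ⟨ν', hν', T', hT', rfl⟩
    have h2 : #J ≤ #𝓕 := hJc 𝓕 h𝓕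
    have h3 : #(range a) ≤ #(J × I) := Cardinal.mk_range_le
    rw [Cardinal.mk_prod, Cardinal.lift_id, Cardinal.lift_id, hI] at h3
    refine h3.trans ?_
    refine (Cardinal.mul_le_max_of_aleph0_le_right hℵ).trans ?_
    exact max_le (h2.trans (le_max_right _ _)) (h1.trans (le_max_left _ _))
  intro C hC hCnull hsub
  have h1 := hnull _ hCnull
  obtain ⟨y, hyT, hy⟩ : ∃ y ∈ T, d y ∉ (⋃ n, C n) ∧ ∀ m, ∀ w ∈ Sp μ, r y m w ∉ ⋃ n, C n := by
    by_contra hcon
    push Not at hcon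
    refine hT (measure_mono_null ?_ (ae_iff.1 h1))
    intro y hyT hy
    obtain ⟨m, w, hw, hmem⟩ := hcon y hyT hy.1
    exact hy.2 m w hw hmem
  obtain ⟨hg1, hg2⟩ := hTsub y hyT
  have hb : ∀ k, ∃ g : ℕ → ℕ, ∀ z : ℕ → ℕ, StrictMono z → W (d y) (r y) z ∈ C k →
      ∀ n, z n ≤ g n := by
    intro k
    refine bound ht hg1 hg2 (hC k) (fun h => hy.1 (mem_iUnion.2 ⟨k, h⟩)) ?_
    intro m w hw h
    exact hy.2 m w hw (mem_iUnion.2 ⟨k, h⟩)
  choose g hg using hb
  obtain ⟨i, hi⟩ := hunb g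
  obtain ⟨j, hj⟩ := e.surjective ⟨y, hyT⟩
  have h2 : a (i, j) ∈ ⋃ k, C k := hsub ⟨(i, j), rfl⟩
  obtain ⟨k, hk⟩ := mem_iUnion.1 h2
  refine hi k fun n => ?_
  have hej : (e j : ℕ → Bool) = y := by rw [hj]
  have hk' : W (d y) (r y) (zc (x i) (c j)) ∈ C k := by
    rw [← hej]
    exact hk
  exact (le_zc (x i) (c j) n).trans (hg k _ (zc_strictMono (hmono i) (c j)) hk' n)

end Pool.Agent.Y569.UN
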