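import Pool.Agent.Y569.UN.Core

/-!
# The theorem for arbitrary Polish spaces
-/

set_option autoImplicit false
set_option linter.all false

open Set Filter Topology Cardinal MeasureTheory

namespace Pool.Agent.Y569.UN

variable {X : Type} [TopologicalSpace X] [PolishSpace X] [MeasurableSpace X] [BorelSpace X]

/-- A measurable map to the Cantor space is continuous on a compact set of positive measure. -/
theorem lusin (μ : Measure X) (hμ : μ univ < ⊤) (hμ0 : μ ≠ 0) (g : X → ℕ → Bool)
    (hg : Measurable g) : ∃ K : Set X, IsCompact K ∧ μ K ≠ 0 ∧ ContinuousOn g K := by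
  classical
  haveI : IsFiniteMeasure μ := ⟨hμ⟩
  have hM0 : μ univ ≠ 0 := Measure.measure_univ_ne_zero.2 hμ0
  obtain ⟨ε, hε0, hε⟩ := ENNReal.exists_pos_sum_of_countable' hM0 (ℕ × Bool)
  have hA : ∀ p : ℕ × Bool, MeasurableSet {x | g x p.1 = p.2} := fun p =>
    ((measurable_pi_apply p.1).comp hg) (measurableSet_singleton p.2)
  have hL : ∀ p : ℕ × Bool, ∃ L ⊆ {x | g x p.1 = p.2}, IsCompact L ∧
      μ ({x | g x p.1 = p.2} \ L) < ε p := fun p =>
    (hA p).exists_isCompact_diff_lt (measure_ne_top μ _) (hε0 p).ne'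
  choose L hLs hLc hLm using hL
  let K : Set X := ⋂ n : ℕ, (L (n, true) ∪ L (n, false))
  have hKc : IsCompact K := by
    have h1 : IsCompact (L (0, true) ∪ L (0, false)) := (hLc _).union (hLc _)
    refine h1.of_isClosed_subset ?_ (iInter_subset _ 0)
    exact isClosed_iInter fun n => ((hLc _).union (hLc _)).isClosed
  refine ⟨K, hKc, ?_, ?_⟩
  · intro h0
    have h1 : (univ : Set X) ⊆ K ∪ ⋃ p : ℕ × Bool, ({x | g x p.1 = p.2} \ L p) := by
      intro x _
      by_cases hx : x ∈ K
      · exact Or.inl hx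
      · right
        simp only [K, mem_iInter, not_forall] at hx
        obtain ⟨n, hn⟩ := hx
        refine mem_iUnion.2 ⟨(n, g x n), rfl, fun h2 => hn ?_⟩
        cases hb : g x n
        · rw [hb] at h2
          exact Or.inr h2
        · rw [hb] at h2
          exact Or.inl h2
    have h2 : μ univ < μ univ := by
      calc μ univ ≤ μ (K ∪ ⋃ p : ℕ × Bool, ({x | g x p.1 = p.2} \ L p)) := measure_mono h1
        _ ≤ μ K + μ (⋃ p : ℕ × Bool, ({x | g x p.1 = p.2} \ L p)) := measure_union_le _ _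
        _ = μ (⋃ p : ℕ × Bool, ({x | g x p.1 = p.2} \ L p)) := by rw [h0, zero_add]
        _ ≤ ∑' p : ℕ × Bool, μ ({x | g x p.1 = p.2} \ L p) := measure_iUnion_le _
        _ ≤ ∑' p : ℕ × Bool, ε p := ENNReal.tsum_le_tsum fun p => (hLm p).le
        _ < μ univ := hε
    exact absurd h2 (lt_irrefl _)
  · rw [continuousOn_pi]
    intro n
    rw [continuousOn_iff_continuous_restrict]
    rw [continuous_discrete_rng]
    intro b
    have h1 : (K.domRestrict fun x => g x n) ⁻¹' {b} = (Subtype.val ⁻¹' L (n, !b) : Set K)ᶜ := by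
      ext x
      have hx : (x : X) ∈ L (n, true) ∪ L (n, false) := mem_iInter.1 x.2 n
      constructor
      · intro h2 h3
        have h2' : g x n = b := h2
        have h4 : g x n = !b := hLs (n, !b) h3
        rw [h2'] at h4
        cases b <;> simp at h4
      · intro h2
        show g x n = b
        rcases hx with h3 | h3
        · have h4 : g x n = true := hLs (n, true) h3
          cases b
          · exact absurd h3 h2
          · exact h4
        · have h4 : g x n = false := hLs (n, false) h3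
          cases b
          · exact h4
          · exact absurd h3 h2
    rw [h1]
    exact ((hLc (n, !b)).isClosed.preimage continuous_subtype_val).isOpen_compl

/-- The main theorem for one measure. -/
theorem polish (μ : Measure X) (hμ : FNA μ) (hμ0 : μ ≠ 0) :
    ∃ A : Set X, UNull A ∧ Sm A ∧ ∀ C : ℕ → Set X, (∀ n, IsClosed (C n)) →
      μ (⋃ n, C n) = 0 → ¬ A ⊆ ⋃ n, C n := by
  classical
  haveI : IsFiniteMeasure μ := ⟨hμ.1⟩
  set g : X → ℕ → Bool := MeasurableSpace.mapNatBool X with hg
  have hgm : Measurable g := MeasurableSpace.measurable_mapNatBool X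
  have hgi : Function.Injective g := MeasurableSpace.injective_mapNatBool X
  have hpush : ∀ lam : Measure X, FNA lam → FNA (lam.map g) := by
    intro lam hlam
    refine ⟨?_, fun v => ?_⟩
    · rw [Measure.map_apply hgm MeasurableSet.univ, preimage_univ]
      exact hlam.1
    · rw [Measure.map_apply hgm (measurableSet_singleton v)]
      have hsub : (g ⁻¹' {v}).Subsingleton := fun a ha b hb => hgi (ha.trans hb.symm)
      rcases hsub.eq_empty_or_singleton with h | ⟨a, h⟩
      · rw [h, measure_empty]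
      · rw [h]; exact hlam.2 a
  obtain ⟨K, hKc, hK0, hKcont⟩ := lusin μ hμ.1 hμ0 g hgm
  have hKm : MeasurableSet K := hKc.isClosed.measurableSet
  have hrest : FNA (μ.restrict K) := by
    refine ⟨lt_of_le_of_lt (Measure.restrict_apply_le _ _) hμ.1, fun x => ?_⟩
    exact le_antisymm ((Measure.restrict_apply_le _ _).trans (hμ.2 x).le) zero_le
  have hne : (μ.restrict K).map g ≠ 0 := by
    intro h0
    have h1 : (μ.restrict K).map g univ = 0 := by rw [h0]; rfl
    rw [Measure.map_apply hgm MeasurableSet.univ, preimage_univ, Measure.restrict_apply_univ] at h1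
    exact hK0 h1
  obtain ⟨A, hA1, hAs, hA2⟩ := core _ (hpush _ hrest) hne
  refine ⟨g ⁻¹' A ∩ K, ?_, ?_, ?_⟩
  · intro lam hlam
    refine measure_mono_null inter_subset_left ?_
    have h1 : lam (g ⁻¹' A) ≤ lam.map g A := Measure.le_map_apply hgm.aemeasurable A
    rw [hA1 _ (hpush _ hlam)] at h1
    exact le_antisymm h1 zero_le
  · intro T ν hν hT 𝓕 h𝓕
    refine le_trans ?_ (hAs T ν hν hT 𝓕 h𝓕)
    refine (Cardinal.mk_le_mk_of_subset inter_subset_left).trans ?_
    exact Cardinal.mk_preimage_of_injective g A hgi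
  · intro C hC hC0 hsub
    -- the closed sets on the Cantor space
    have hgK : IsClosed (g '' K) := (hKc.image_of_continuousOn hKcont).isClosed
    obtain ⟨f, hf, hfK⟩ := isGδ_iff_eq_iInter_nat.1 hgK.isGδ
    have himg : ∀ n, IsClosed (g '' (C n ∩ K)) := fun n =>
      ((hKc.inter_left (hC n)).image_of_continuousOn (hKcont.mono inter_subset_right)).isClosed
    refine hA2 (fun n => (f n)ᶜ ∪ g '' (C n ∩ K))
      (fun n => (hf n).isClosed_compl.union (himg n)) ?_ ?_
    · rw [measure_iUnion_null_iff]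
      intro n
      refine measure_union_null ?_ ?_
      · rw [Measure.map_apply hgm (hf n).isClosed_compl.measurableSet,
          Measure.restrict_apply (hgm (hf n).isClosed_compl.measurableSet)]
        have : g ⁻¹' (f n)ᶜ ∩ K = ∅ := by
          ext x
          simp only [mem_inter_iff, mem_preimage, mem_compl_iff, mem_empty_iff_false, iff_false,
            not_and]
          intro h1 h2
          have h3 : g x ∈ g '' K := ⟨x, h2, rfl⟩
          rw [hfK] at h3
          exact h1 (mem_iInter.1 h3 n)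
        rw [this, measure_empty]
      · rw [Measure.map_apply hgm (himg n).measurableSet,
          Measure.restrict_apply (hgm (himg n).measurableSet), preimage_image_eq _ hgi]
        refine measure_mono_null ?_ hC0
        intro x hx
        exact mem_iUnion.2 ⟨n, hx.1.1⟩
    · intro v hv
      by_cases hvK : v ∈ g '' K
      · obtain ⟨x, hxK, rfl⟩ := hvK
        obtain ⟨n, hn⟩ := mem_iUnion.1 (hsub ⟨hv, hxK⟩)
        exact mem_iUnion.2 ⟨n, Or.inr ⟨x, ⟨hn, hxK⟩, rfl⟩⟩
      · rw [hfK, mem_iInter, not_forall] at hvK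
        obtain ⟨n, hn⟩ := hvK
        exact mem_iUnion.2 ⟨n, Or.inl hn⟩

/-- An `F_σ` set. -/
def FS (F : Set X) : Prop := ∃ C : ℕ → Set X, (∀ n, IsClosed (C n)) ∧ F = ⋃ n, C n

/-- The set can be chosen large everywhere. -/
theorem everywhere (μ : Measure X) (hμ : FNA μ) :
    ∃ A : Set X, UNull A ∧ Sm A ∧ ∀ V F : Set X, IsOpen V → μ V ≠ 0 → FS F → A ∩ V ⊆ F →
      μ (F ∩ V) ≠ 0 := by
  classical
  haveI : IsFiniteMeasure μ := ⟨hμ.1⟩
  set 𝔅 := TopologicalSpace.countableBasis X with hB
  haveI : Countable 𝔅 := (TopologicalSpace.countable_countableBasis X).to_subtype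
  have hbase : TopologicalSpace.IsTopologicalBasis 𝔅 := TopologicalSpace.isBasis_countableBasis X
  have hrest : ∀ O : Set X, FNA (μ.restrict O) := fun O =>
    ⟨lt_of_le_of_lt (Measure.restrict_apply_le _ _) hμ.1, fun x =>
      le_antisymm ((Measure.restrict_apply_le _ _).trans (hμ.2 x).le) zero_le⟩
  have hch : ∀ O : 𝔅, ∃ A : Set X, UNull A ∧ Sm A ∧ (μ O ≠ 0 → ∀ C : ℕ → Set X, (∀ n, IsClosed (C n)) →
      (μ.restrict O) (⋃ n, C n) = 0 → ¬ A ⊆ ⋃ n, C n) := by
    intro O
    by_cases h0 : μ O = 0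
    · exact ⟨∅, fun lam _ => measure_empty, fun T ν _ _ 𝓕 _ => by simp, fun h => absurd h0 h⟩
    · have h1 : μ.restrict O ≠ 0 := by
        intro h2
        rw [Measure.restrict_eq_zero] at h2
        exact h0 h2
      obtain ⟨A, hA1, hAs, hA2⟩ := polish _ (hrest O) h1
      exact ⟨A, hA1, hAs, fun _ => hA2⟩
  choose A hA1 hAs hA2 using hch
  refine ⟨⋃ O : 𝔅, A O ∩ O, ?_, ?_, ?_⟩
  · intro lam hlam
    rw [measure_iUnion_null_iff]
    intro O
    exact measure_mono_null inter_subset_left (hA1 O lam hlam)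
  · intro T ν hν hT 𝓕 h𝓕
    have hTinf : ℵ₀ ≤ #T := by
      by_contra hcon
      push Not at hcon
      rw [Cardinal.lt_aleph0_iff_set_finite] at hcon
      refine hT ?_
      have : T = ⋃ x ∈ T, {x} := by simp
      rw [this, measure_biUnion_null_iff hcon.countable]
      exact fun x _ => hν.2 x
    have hM : ℵ₀ ≤ max #T #𝓕 := hTinf.trans (le_max_left _ _)
    refine (Cardinal.mk_iUnion_le _).trans ?_
    refine (mul_le_mul' (Cardinal.mk_le_aleph0 (α := 𝔅)) (ciSup_le' fun O => ?_)).trans
      (Cardinal.aleph0_mul_eq hM).le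
    exact (Cardinal.mk_le_mk_of_subset inter_subset_left).trans (hAs O T ν hν hT 𝓕 h𝓕)
  · rintro V F hV hV0 ⟨C, hC, rfl⟩ hsub h0
    -- a basic set of positive measure inside V
    obtain ⟨O, hO, hOV, hO0⟩ : ∃ O ∈ 𝔅, O ⊆ V ∧ μ O ≠ 0 := by
      by_contra hcon
      push Not at hcon
      refine hV0 ?_
      obtain ⟨S, hS, rfl⟩ := hbase.open_eq_sUnion hV
      rw [measure_sUnion_null_iff ((TopologicalSpace.countable_countableBasis X).mono hS)]
      intro O hOS
      exact hcon O (hS hOS) (subset_sUnion_of_mem hOS)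
    have hOo : IsOpen O := hbase.isOpen hO
    refine hA2 ⟨O, hO⟩ hO0 (fun n => C n ∪ Oᶜ) (fun n => (hC n).union hOo.isClosed_compl) ?_ ?_
    · have h1 : (⋃ n, (C n ∪ Oᶜ)) = (⋃ n, C n) ∪ Oᶜ := by
        rw [iUnion_union_distrib, iUnion_const]
      rw [h1]
      refine measure_union_null ?_ ?_
      · rw [Measure.restrict_apply (MeasurableSet.iUnion fun n => (hC n).measurableSet)]
        exact measure_mono_null (inter_subset_inter_right _ hOV) h0
      · rw [Measure.restrict_apply hOo.measurableSet.compl]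
        simp
    · intro x hx
      by_cases hxO : x ∈ O
      · have h2 : x ∈ (⋃ O : 𝔅, A O ∩ O) ∩ V :=
          ⟨mem_iUnion.2 ⟨⟨O, hO⟩, hx, hxO⟩, hOV hxO⟩
        obtain ⟨n, hn⟩ := mem_iUnion.1 (hsub h2)
        exact mem_iUnion.2 ⟨n, Or.inl hn⟩
      · exact mem_iUnion.2 ⟨0, Or.inr hxO⟩

/-- No universally null set works for all measures. -/
theorem notAll {A : Set X} (hA : UNull A) (μ : Measure X) (hμ : FNA μ) (hμ0 : μ ≠ 0) :
    ∃ μ' : Measure X, μ' ≤ μ ∧ μ' ≠ 0 ∧ FNA μ' ∧ ∃ F : Set X, IsOpen F ∧ A ⊆ F ∧ μ' F = 0 := by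
  haveI : IsFiniteMeasure μ := ⟨hμ.1⟩
  have h1 : μ (toMeasurable μ A)ᶜ ≠ 0 := by
    intro h0
    have h2 : μ (toMeasurable μ A) = 0 := by rw [measure_toMeasurable]; exact hA μ hμ
    have h3 : μ univ = 0 := by
      rw [← union_compl_self (toMeasurable μ A)]
      exact measure_union_null h2 h0
    exact hμ0 (Measure.measure_univ_eq_zero.1 h3)
  obtain ⟨K, hK1, hK2, hK3⟩ := (measurableSet_toMeasurable μ A).compl.exists_isCompact_diff_lt
    (measure_ne_top μ _) h1
  have hK0 : μ K ≠ 0 := by
    intro h0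
    have h4 : μ (toMeasurable μ A)ᶜ ≤ μ K + μ ((toMeasurable μ A)ᶜ \ K) := by
      refine (measure_mono ?_).trans (measure_union_le _ _)
      intro x hx
      by_cases hxK : x ∈ K
      · exact Or.inl hxK
      · exact Or.inr ⟨hx, hxK⟩
    rw [h0, zero_add] at h4
    exact absurd hK3 (not_lt.2 h4)
  refine ⟨μ.restrict K, Measure.restrict_le_self, ?_, ?_, Kᶜ, hK2.isClosed.isOpen_compl, ?_, ?_⟩
  · intro h2
    rw [Measure.restrict_eq_zero] at h2
    exact hK0 h2
  · exact ⟨lt_of_le_of_lt (Measure.restrict_apply_le _ _) hμ.1, fun x =>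
      le_antisymm ((Measure.restrict_apply_le _ _).trans (hμ.2 x).le) zero_le⟩
  · intro x hx hxK
    exact hK1 hxK (subset_toMeasurable μ A hx)
  · rw [Measure.restrict_apply hK2.isClosed.measurableSet.compl]
    simp

end Pool.Agent.Y569.UN
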