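import Mathlib

/-!
# Levels and small clopen sets for a non-atomic measure on the Cantor space
-/

set_option autoImplicit false
set_option linter.all false

open Set Filter Topology MeasureTheory

namespace Pool.Agent.Y569.UN

/-- The cylinder of the points which agree with `w` below `n`. -/
def cyl (w : ℕ → Bool) (n : ℕ) : Set (ℕ → Bool) := {v | ∀ i < n, v i = w i}

theorem cyl_self (w : ℕ → Bool) (n : ℕ) : w ∈ cyl w n := fun _ _ => rfl

theorem cyl_eq {v w : ℕ → Bool} {n : ℕ} (h : v ∈ cyl w n) : cyl v n = cyl w n := by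
  ext u
  constructor
  · intro hu i hi
    rw [hu i hi, h i hi]
  · intro hu i hi
    rw [hu i hi, h i hi]

theorem cyl_anti (w : ℕ → Bool) {n n' : ℕ} (h : n ≤ n') : cyl w n' ⊆ cyl w n :=
  fun _ hv i hi => hv i (lt_of_lt_of_le hi h)

theorem isClopen_cyl (w : ℕ → Bool) (n : ℕ) : IsClopen (cyl w n) := by
  have h : cyl w n = ⋂ i ∈ Finset.range n, (fun v : ℕ → Bool => v i) ⁻¹' {w i} := by
    ext v
    simp [cyl]
  rw [h]
  refine isClopen_biInter_finset fun i _ => ?_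
  exact (isClopen_discrete _).preimage (continuous_apply i)

theorem measurableSet_cyl (w : ℕ → Bool) (n : ℕ) : MeasurableSet (cyl w n) :=
  (isClopen_cyl w n).isClosed.measurableSet

/-- a closed set which misses a point misses a cylinder -/
theorem exists_cyl {C : Set (ℕ → Bool)} (hC : IsClosed C) {w : ℕ → Bool} (hw : w ∉ C) :
    ∃ n, ∀ v ∈ cyl w n, v ∉ C := by
  have h1 : Cᶜ ∈ 𝓝 w := hC.isOpen_compl.mem_nhds hw
  rw [nhds_pi, Filter.mem_pi] at h1
  obtain ⟨s, hs, t, ht, hsub⟩ := h1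
  obtain ⟨n, hn⟩ := hs.bddAbove
  refine ⟨n + 1, fun v hv => ?_⟩
  have : v ∈ s.pi t := by
    intro i hi
    have h2 : v i = w i := hv i (Nat.lt_succ_of_le (hn hi))
    rw [h2]
    exact mem_of_mem_nhds (ht i)
  exact hsub this

/-- the set of points all whose cylinders have positive measure -/
def Sp (μ : Measure (ℕ → Bool)) : Set (ℕ → Bool) := {w | ∀ n, μ (cyl w n) ≠ 0}

/-- the extension of a finite word by `false` -/
def ext {n : ℕ} (σ : Fin n → Bool) : ℕ → Bool := fun i => if h : i < n then σ ⟨i, h⟩ else false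

/-- the restriction to a finite word -/
def res (n : ℕ) (w : ℕ → Bool) : Fin n → Bool := fun i => w i

theorem ext_res_mem (n : ℕ) (w : ℕ → Bool) : ext (res n w) ∈ cyl w n := by
  intro i hi
  simp [ext, res, hi]

theorem cyl_ext_res (n : ℕ) (w : ℕ → Bool) : cyl (ext (res n w)) n = cyl w n :=
  cyl_eq (ext_res_mem n w)

theorem measurableSet_Sp (μ : Measure (ℕ → Bool)) : MeasurableSet (Sp μ) := by
  have h : Sp μ = ⋂ n : ℕ, ⋂ σ : Fin n → Bool, {w | w ∈ cyl (ext σ) n → μ (cyl (ext σ) n) ≠ 0} := by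
    ext w
    simp only [Sp, mem_setOf_eq, mem_iInter]
    constructor
    · intro h n σ hw
      rw [← cyl_eq hw]
      exact h n
    · intro h n
      have := h n (res n w)
      rw [cyl_ext_res] at this
      exact this (cyl_self w n)
  rw [h]
  refine MeasurableSet.iInter fun n => MeasurableSet.iInter fun σ => ?_
  by_cases h0 : μ (cyl (ext σ) n) = 0
  · have : {w | w ∈ cyl (ext σ) n → μ (cyl (ext σ) n) ≠ 0} = (cyl (ext σ) n)ᶜ := by
      ext w
      simp [h0]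
    rw [this]
    exact (measurableSet_cyl _ _).compl
  · have : {w | w ∈ cyl (ext σ) n → μ (cyl (ext σ) n) ≠ 0} = univ := by
      ext w
      simp [h0]
    rw [this]
    exact MeasurableSet.univ

theorem measure_compl_Sp (μ : Measure (ℕ → Bool)) : μ (Sp μ)ᶜ = 0 := by
  have h : (Sp μ)ᶜ ⊆ ⋃ n : ℕ, ⋃ σ : Fin n → Bool, if μ (cyl (ext σ) n) = 0 then cyl (ext σ) n else ∅ := by
    intro w hw
    simp only [Sp, mem_compl_iff, mem_setOf_eq, not_forall, not_not] at hw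
    obtain ⟨n, hn⟩ := hw
    simp only [mem_iUnion]
    refine ⟨n, res n w, ?_⟩
    rw [cyl_ext_res, if_pos hn]
    exact cyl_self w n
  refine measure_mono_null h ?_
  rw [measure_iUnion_null_iff]
  intro n
  rw [measure_iUnion_null_iff]
  intro σ
  split_ifs with h0
  · exact h0
  · exact measure_empty

theorem exists_mem_Sp {μ : Measure (ℕ → Bool)} {A : Set (ℕ → Bool)} (h : μ A ≠ 0) :
    ∃ w ∈ A, w ∈ Sp μ := by
  by_contra hcon
  push Not at hcon
  exact h (measure_mono_null (fun w hw => hcon w hw) (measure_compl_Sp μ))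

/-- small cylinders around a point -/
theorem exists_small {μ : Measure (ℕ → Bool)} (hμ : μ univ < ⊤) (hat : ∀ x, μ {x} = 0)
    (w : ℕ → Bool) {ε : ENNReal} (hε : ε ≠ 0) (n : ℕ) : ∃ m, n ≤ m ∧ μ (cyl w m) ≤ ε := by
  haveI : IsFiniteMeasure μ := ⟨hμ⟩
  have h1 : Tendsto (fun m => μ (cyl w m)) atTop (𝓝 (μ (⋂ m, cyl w m))) :=
    tendsto_measure_iInter_atTop (fun m => (measurableSet_cyl w m).nullMeasurableSet)
      (fun a b hab => cyl_anti w hab) ⟨0, measure_ne_top μ _⟩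
  have h2 : (⋂ m, cyl w m) = {w} := by
    ext v
    simp only [mem_iInter, mem_singleton_iff]
    constructor
    · intro h
      funext i
      exact h (i + 1) i (Nat.lt_succ_self i)
    · rintro rfl m
      exact cyl_self v m
  rw [h2, hat] at h1
  have h3 : ∀ᶠ m in atTop, μ (cyl w m) < ε := h1.eventually (gt_mem_nhds (pos_iff_ne_zero.2 hε))
  obtain ⟨m, hm1, hm2⟩ := (h3.and (eventually_ge_atTop n)).exists
  exact ⟨m, hm2, hm1.le⟩

/-- one step of the construction -/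
theorem step {μ : Measure (ℕ → Bool)} (hμ : μ univ < ⊤) (hat : ∀ x, μ {x} = 0) (n : ℕ)
    {ε : ENNReal} (hε : ε ≠ 0) : ∃ (n' : ℕ) (U : Set (ℕ → Bool)), n < n' ∧
      (∀ v w, v ∈ cyl w n' → (v ∈ U ↔ w ∈ U)) ∧ μ U ≤ ε ∧ ∀ w, μ (cyl w n) ≠ 0 → μ (cyl w n ∩ U) ≠ 0 := by
  classical
  -- the number of words
  set K : ℕ := Fintype.card (Fin n → Bool) with hK
  have hK0 : (K : ENNReal) ≠ 0 := by
    rw [hK]
    simp
  have hε' : ε / K ≠ 0 := by
    rw [Ne, ENNReal.div_eq_zero_iff]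
    push Not
    exact ⟨hε, ENNReal.natCast_ne_top K⟩
  have hch : ∀ σ : Fin n → Bool, ∃ (p : ℕ → Bool) (m : ℕ), n ≤ m ∧ μ (cyl p m) ≤ ε / K ∧
      (μ (cyl (ext σ) n) ≠ 0 → p ∈ cyl (ext σ) n ∧ p ∈ Sp μ) := by
    intro σ
    by_cases h0 : μ (cyl (ext σ) n) = 0
    · obtain ⟨m, hm1, hm2⟩ := exists_small hμ hat (ext σ) hε' n
      exact ⟨ext σ, m, hm1, hm2, fun h => absurd h0 h⟩
    · obtain ⟨p, hp1, hp2⟩ := exists_mem_Sp h0
      obtain ⟨m, hm1, hm2⟩ := exists_small hμ hat p hε' n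
      exact ⟨p, m, hm1, hm2, fun _ => ⟨hp1, hp2⟩⟩
  choose p m hnm hsm hp using hch
  refine ⟨(∑ σ, m σ) + n + 1, ⋃ σ, cyl (p σ) (m σ), by omega, ?_, ?_, ?_⟩
  · intro v w hvw
    simp only [mem_iUnion]
    have hle : ∀ σ, m σ ≤ (∑ σ, m σ) + n + 1 := fun σ => by
      have := Finset.single_le_sum (f := m) (fun _ _ => Nat.zero_le _) (Finset.mem_univ σ)
      omega
    constructor
    · rintro ⟨σ, hσ⟩
      refine ⟨σ, fun i hi => ?_⟩
      rw [← hvw i (lt_of_lt_of_le hi (hle σ))]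
      exact hσ i hi
    · rintro ⟨σ, hσ⟩
      refine ⟨σ, fun i hi => ?_⟩
      rw [hvw i (lt_of_lt_of_le hi (hle σ))]
      exact hσ i hi
  · refine (measure_iUnion_fintype_le μ _).trans ?_
    refine (Finset.sum_le_sum fun σ _ => hsm σ).trans ?_
    rw [Finset.sum_const, Finset.card_univ, nsmul_eq_mul, ← hK]
    exact ENNReal.mul_div_le
  · intro w hw
    have h1 : μ (cyl (ext (res n w)) n) ≠ 0 := by rw [cyl_ext_res]; exact hw
    obtain ⟨h2, h3⟩ := hp _ h1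
    rw [cyl_ext_res] at h2
    have h4 : cyl (p (res n w)) (m (res n w)) ⊆ cyl w n ∩ ⋃ σ, cyl (p σ) (m σ) := by
      intro v hv
      refine ⟨?_, mem_iUnion.2 ⟨_, hv⟩⟩
      rw [← cyl_eq h2]
      exact cyl_anti _ (hnm _) hv
    intro h5
    exact h3 (m (res n w)) (measure_mono_null h4 h5)

/-- lower bound for the positive measures of cylinders of a level -/
theorem exists_delta (μ : Measure (ℕ → Bool)) (n : ℕ) : ∃ δ : ENNReal, δ ≠ 0 ∧
    ∀ w, μ (cyl w n) ≠ 0 → δ ≤ μ (cyl w n) := by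
  classical
  refine ⟨⨅ σ : Fin n → Bool, if μ (cyl (ext σ) n) = 0 then ⊤ else μ (cyl (ext σ) n), ?_, ?_⟩
  · intro h0
    obtain ⟨σ, hσ⟩ : ∃ σ : Fin n → Bool, (if μ (cyl (ext σ) n) = 0 then ⊤ else μ (cyl (ext σ) n)) =
        ⨅ σ : Fin n → Bool, if μ (cyl (ext σ) n) = 0 then ⊤ else μ (cyl (ext σ) n) :=
      exists_eq_ciInf_of_finite
    rw [h0] at hσ
    split_ifs at hσ with h
    · simp at hσ
    · exact h hσ
  · intro w hw
    refine (iInf_le _ (res n w)).trans ?_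
    rw [cyl_ext_res, if_neg hw]

/-- the tree: levels `ℓ` and clopen sets `U` -/
theorem exists_tree {μ : Measure (ℕ → Bool)} (hμ : μ univ < ⊤) (hat : ∀ x, μ {x} = 0) :
    ∃ (ℓ : ℕ → ℕ) (U : ℕ → Set (ℕ → Bool)), StrictMono ℓ ∧
      (∀ j v w, v ∈ cyl w (ℓ (j + 1)) → (v ∈ U j ↔ w ∈ U j)) ∧
      (∀ j w, μ (cyl w (ℓ j)) ≠ 0 → μ (cyl w (ℓ j) ∩ U j) ≠ 0) ∧
      ∀ j, ∃ δ : ENNReal, (∀ w, μ (cyl w (ℓ j)) ≠ 0 → δ ≤ μ (cyl w (ℓ j))) ∧
        μ (U j) ≤ (2⁻¹ : ENNReal) ^ (j + 2) * δ := by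
  classical
  choose δ hδ0 hδ using exists_delta μ
  have hε : ∀ (j n : ℕ), (2⁻¹ : ENNReal) ^ (j + 2) * δ n ≠ 0 := by
    intro j n
    refine mul_ne_zero (pow_ne_zero _ ?_) (hδ0 n)
    simp
  choose nx V h1 h2 h3 h4 using fun (j n : ℕ) => step hμ hat n (hε j n)
  let ℓ : ℕ → ℕ := fun j => Nat.rec 0 (fun j n => nx j n) j
  have hℓ : ∀ j, ℓ (j + 1) = nx j (ℓ j) := fun j => rfl
  refine ⟨ℓ, fun j => V j (ℓ j), strictMono_nat_of_lt_succ fun j => ?_, ?_, ?_, ?_⟩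
  · rw [hℓ]; exact h1 j (ℓ j)
  · intro j v w hvw
    rw [hℓ] at hvw
    exact h2 j (ℓ j) v w hvw
  · intro j w hw
    exact h4 j (ℓ j) w hw
  · intro j
    exact ⟨δ (ℓ j), hδ (ℓ j), h3 j (ℓ j)⟩

end Pool.Agent.Y569.UN
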